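import Pool.Agent.helper19.QP.SpecV
import Pool.Agent.helper7.IG.Basic

/-! Row qp:URU (MP_ebc808_nt): sums over roots of unity. -/

set_option autoImplicit false

open Finset

noncomputable section

namespace Pool.Agent.QP

open Pool.Agent.helper7.IG (kk LL sig DDk MM im2 ps Vx Nb Frame)

theorem URU_mem (m : ℕ) (hm : Odd m) (ζ : kkˣ) : ζ ∈ RU m ↔ ζ ^ m = 1 := by
  have hm0 : NeZero m := ⟨hm.pos.ne'⟩
  have hfin : {ζ : kkˣ | ζ ^ m = 1}.Finite := by
    have hf : Finite (rootsOfUnity m kk) := inferInstance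
    have h1 : ((rootsOfUnity m kk : Subgroup kkˣ) : Set kkˣ).Finite := Set.finite_coe_iff.1 hf
    refine h1.subset fun ζ hζ => ?_
    exact (mem_rootsOfUnity m ζ).2 hζ
  unfold RU
  rw [dif_pos hfin, Set.Finite.mem_toFinset, Set.mem_ofPred_eq]

theorem URU : URU_stmt := by
  intro m hm
  refine ⟨URU_mem m hm, fun t => ?_⟩
  have hm0 : NeZero m := ⟨hm.pos.ne'⟩
  obtain ⟨ω, hω⟩ := Pool.Agent.helper7.IG.exists_primitive m hm
  by_cases ht : (m : ℤ) ∣ t
  · rw [if_pos ht]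
    obtain ⟨c, rfl⟩ := ht
    have h1 : ∑ ζ ∈ RU m, ((ζ ^ ((m : ℤ) * c) : kkˣ) : kk) = ∑ ζ ∈ RU m, (1 : kk) := by
      refine Finset.sum_congr rfl fun ζ hζ => ?_
      rw [zpow_mul, zpow_natCast, (URU_mem m hm ζ).1 hζ, one_zpow, Units.val_one]
    rw [h1, Finset.sum_const, nsmul_eq_mul, mul_one]
    have hcard : #(RU m) = m := by
      have h3 : Nat.card (rootsOfUnity m kk) = m := hω.card_rootsOfUnity'
      have h4 : Nat.card {x // x ∈ RU m} = Nat.card (rootsOfUnity m kk) :=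
        Nat.card_congr (Equiv.subtypeEquivRight fun x => (URU_mem m hm x).trans (mem_rootsOfUnity m x).symm)
      rw [Nat.card_eq_fintype_card, Fintype.card_coe] at h4
      rw [h4, h3]
    rw [hcard]
    obtain ⟨n, rfl⟩ := hm
    push_cast
    have h20 : (2 : kk) = 0 := by
      have := CharP.cast_eq_zero kk 2
      exact_mod_cast this
    rw [h20, zero_mul, zero_add]
  · rw [if_neg ht]
    have hne : ω ^ t ≠ 1 := by
      intro h
      exact ht ((hω.zpow_eq_one_iff_dvd t).1 h)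
    have h1 : ∑ ζ ∈ RU m, ((ζ ^ t : kkˣ) : kk) = ((ω ^ t : kkˣ) : kk) * ∑ ζ ∈ RU m, ((ζ ^ t : kkˣ) : kk) := by
      rw [Finset.mul_sum]
      symm
      refine Finset.sum_bij' (fun ζ _ => ω * ζ) (fun ζ _ => ω⁻¹ * ζ) ?_ ?_ ?_ ?_ ?_
      · intro ζ hζ
        rw [URU_mem m hm] at hζ ⊢
        rw [mul_pow, hω.pow_eq_one, hζ, one_mul]
      · intro ζ hζ
        rw [URU_mem m hm] at hζ ⊢
        rw [mul_pow, inv_pow, hω.pow_eq_one, hζ, inv_one, one_mul]
      · intro ζ _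
        exact inv_mul_cancel_left ω ζ
      · intro ζ _
        exact mul_inv_cancel_left ω ζ
      · intro ζ _
        rw [mul_zpow, Units.val_mul]
    have h2 : (1 - ((ω ^ t : kkˣ) : kk)) * ∑ ζ ∈ RU m, ((ζ ^ t : kkˣ) : kk) = 0 := by
      rw [sub_mul, one_mul, ← h1, sub_self]
    rcases mul_eq_zero.1 h2 with h | h
    · exact absurd (Units.ext (by rw [Units.val_one]; exact (sub_eq_zero.1 h).symm)) hne
    · exact h

end Pool.Agent.QP
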